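import Pool.Agent.S04713

/-! The sequence `e^{-k^3}` is a complex zero decreasing sequence for some simple set of
polynomials, namely for the standard basis. -/

set_option autoImplicit false

open Polynomial

namespace Pool.Agent.Results.MP_2780b6_an.StandardBasis

/-- A simple set: a sequence of real polynomials `q k` with `q k` of degree exactly `k`. -/
def SimpleSet (q : ℕ → ℝ[X]) : Prop := ∀ k, (q k).degree = (k : WithBot ℕ)

/-- The number of non-real zeros of a real polynomial, counted with multiplicity. -/
noncomputable def Zc (p : ℝ[X]) : ℕ :=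
  ((p.map (algebraMap ℝ ℂ)).roots.filter (fun z : ℂ => z.im ≠ 0)).card

/-- `γ` is a complex zero decreasing sequence for `q`: for every finitely supported coefficient
family `a`, the polynomial `∑ γ k * a k * q k` has at most as many non-real zeros as
`∑ a k * q k`. -/
def IsCZDS (q : ℕ → ℝ[X]) (γ : ℕ → ℝ) : Prop :=
  ∀ a : ℕ →₀ ℝ, Zc (a.sum fun k c => C (γ k * c) * q k) ≤ Zc (a.sum fun k c => C c * q k)

/-- There is a simple set of polynomials for which `exp (-k^3)` is a complex zero decreasing
sequence. -/
theorem result : ∃ q : ℕ → ℝ[X], SimpleSet q ∧ IsCZDS q (fun k => Real.exp (-((k : ℝ) ^ 3))) := by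
  classical
  refine ⟨fun k => X ^ k, fun k => degree_X_pow k, ?_⟩
  intro a
  have hc : ∀ n, (a.sum fun k c => C c * X ^ k : ℝ[X]).coeff n = a n := by
    intro n
    rw [Finsupp.sum, Polynomial.finsetSum_coeff]
    simp only [Polynomial.coeff_C_mul_X_pow]
    rw [Finset.sum_ite_eq]
    split_ifs with h
    · rfl
    · exact (Finsupp.notMem_support_iff.1 h).symm
  have hs : (a.sum fun k c => C c * X ^ k : ℝ[X]).support = a.support := by
    ext n
    rw [Polynomial.mem_support_iff, hc, Finsupp.mem_support_iff]
  have h := Pool.Agent.S04713.result 3 le_rfl (a.sum fun k c => C c * X ^ k)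
  have hg : (a.sum fun k c => C (Real.exp (-((k : ℝ) ^ 3)) * c) * X ^ k) =
      ∑ n ∈ (a.sum fun k c => C c * X ^ k : ℝ[X]).support,
        C ((a.sum fun k c => C c * X ^ k : ℝ[X]).coeff n * Real.exp (-((n : ℝ) ^ 3))) * X ^ n := by
    rw [hs, Finsupp.sum]
    refine Finset.sum_congr rfl fun k _ => ?_
    rw [hc, mul_comm (Real.exp _)]
  change Zc (a.sum fun k c => C (Real.exp (-((k : ℝ) ^ 3)) * c) * X ^ k) ≤
    Zc (a.sum fun k c => C c * X ^ k)
  rw [hg]
  exact h

end Pool.Agent.Results.MP_2780b6_an.StandardBasis
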